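import Mathlib
import Pool.Agent.R126.Ix.CTower

/-!
# Mapping index versus cross-index of the face poset

All definitions (`QG G n` = the poset `Q_n G`, finite free `G`-simplicial complexes `FreeSC G`,
the face poset `X.face.P`, geometric realisation, `IsInd`, `IsXind`) are in
`Pool/Agent/R126/Ix/Defs.lean`.

For every nontrivial finite group `G` and all `1 ≤ m < n` there is a finite free `G`-simplicial
complex `K` with `ind K = m` and `Xind F(K) = n`.
-/

set_option autoImplicit false

namespace Pool.Agent.Results.MP_848d58_co.AllGaps

open Pool.Agent.R126.Ix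

universe u

theorem result (G : Type u) [Group G] [Fintype G] [Nontrivial G] (m n : ℕ) (hm : 1 ≤ m)
    (hmn : m < n) : ∃ X : FreeSC G, IsInd G X.K m ∧ IsXind G X.face.P n :=
  exists_cgap G hm hmn

end Pool.Agent.Results.MP_848d58_co.AllGaps
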